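import Mathlib
import Pool.Agent.Lib.MP_2c9e21_co.HkMain

namespace Pool.Agent.Results.MP_2c9e21_co.HookShapes

open Pool.Agent.Lib.MP_2c9e21_co

theorem result (l : ℕ) (ξ : Fin l → ℕ) (hξ : StrictAnti ξ) (hpos : ∀ i, 0 < ξ i) (a k : ℕ)
    (ha : 1 ≤ a) (hs : ∑ i, ξ i = a + k) (N : ℕ) (hN : a + k ≤ N) :
    ∃ K : (Fin N → ℕ) → Polynomial ℤ, IsExp N ξ K ∧
      (∀ K', IsExp N ξ K' → ∀ μ ∈ Par N (∑ i, ξ i), K' μ = K μ) ∧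
      (Pal (K fun i => if i.val = 0 then a else if i.val ≤ k then 1 else 0) ↔
        a = 1 ∨ (∀ i : Fin l, i.val = 1 → ξ i < a) ∨ (l = a + 1 ∧ ∀ i, ξ i + i.val = a + 1)) :=
  hook_main hξ hpos ha hs hN

end Pool.Agent.Results.MP_2c9e21_co.HookShapes
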