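import Mathlib
import Pool.Agent.Lib.MP_2c9e21_co.Long

namespace Pool.Agent.Results.MP_2c9e21_co.LongParts

open Pool.Agent.Lib.MP_2c9e21_co

theorem result (l : ℕ) (ξ : Fin l → ℕ) (hξ : StrictAnti ξ) (hpos : ∀ i, 0 < ξ i) (N : ℕ)
    (hN : ∑ i, ξ i ≤ N) :
    ∃ K : (Fin N → ℕ) → Polynomial ℤ, IsExp N ξ K ∧
      (∀ K', IsExp N ξ K' → ∀ μ ∈ Par N (∑ i, ξ i), K' μ = K μ) ∧
      ∀ μ ∈ Par N (∑ i, ξ i), (∀ i, μ i ≤ 1 ∨ ∀ j : Fin l, j.val = 1 → ξ j < μ i) → Pal (K μ) :=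
  long_main hξ hpos hN

end Pool.Agent.Results.MP_2c9e21_co.LongParts
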