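import Mathlib
import Pool.Agent.Lib.MP_2c9e21_co.Main

namespace Pool.Agent.Results.MP_2c9e21_co.PalindromicShapes

open Pool.Agent.Lib.MP_2c9e21_co

theorem result (l : ℕ) (ξ : Fin l → ℕ) (hξ : StrictAnti ξ) (hpos : ∀ i, 0 < ξ i) (N : ℕ)
    (hN : ∑ i, ξ i ≤ N) :
    ∃ K : (Fin N → ℕ) → Polynomial ℤ, IsExp N ξ K ∧
      (∀ K', IsExp N ξ K' → ∀ μ ∈ Par N (∑ i, ξ i), K' μ = K μ) ∧
      ((∀ μ ∈ Par N (∑ i, ξ i), Pal (K μ)) ↔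
        l ≤ 1 ∨ (l = 2 ∧ ∃ i, ξ i = 1) ∨ List.ofFn ξ = [3, 2, 1]) ∧
      (Pal (K fun i => if i.val = 0 then 2 else if i.val + 1 < ∑ j, ξ j then 1 else 0) →
        l ≤ 1 ∨ (l = 2 ∧ ∃ i, ξ i = 1) ∨ List.ofFn ξ = [3, 2, 1]) :=
  main hξ hpos hN

end Pool.Agent.Results.MP_2c9e21_co.PalindromicShapes
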