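import Mathlib
import Pool.Agent.Lib.MP_2c9e21_co.TwoMain

namespace Pool.Agent.Results.MP_2c9e21_co.SecondPartTwo

open Pool.Agent.Lib.MP_2c9e21_co

theorem result (p : ℕ) (hp : 3 ≤ p) (N : ℕ) (hN : p + 2 ≤ N) :
    ∃ K : (Fin N → ℕ) → Polynomial ℤ, IsExp N ![p, 2] K ∧
      (∀ K', IsExp N ![p, 2] K' → ∀ μ ∈ Par N (p + 2), K' μ = K μ) ∧
      ∀ μ ∈ Par N (p + 2), (Pal (K μ) ↔ (∀ i, μ i ≠ 2) ∨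
        ((∀ i, μ i ≠ 1) ∧ ∀ i, 3 ≤ μ i ↔ i.val = 0) ∨ ((∀ i, μ i ≤ 2) ∧ ∃! i, μ i = 1)) :=
  two_main hp hN

end Pool.Agent.Results.MP_2c9e21_co.SecondPartTwo
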